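import Pool.Agent.TH206.FroE.Main

/-!
# Fröberg's conjecture for spaces of forms of the same degree: all degrees, many forms

The format is the one of the frozen statement `S00009`, over an arbitrary infinite field `K` (in
particular over every field of characteristic `0`). There is one more number `k < d` with
`n ≥ 2 k + 2` (or a weaker numerical condition), and the formula is proved

* for all `u` and all `j ≤ k`;
* for all `j` if `u * dim S_k > dim S_{d + k}`.

For `n ≥ 2 d` one may take `k = d - 1`: the conjecture holds in all degrees less than `2 d`, and it
holds completely for all `u > dim S_{2 d - 1} / dim S_{d - 1}`.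

Idea of the proof: see `Pool/Agent/Results/MP_3395a4_ag/DegreesBelowTwice.lean` for the degrees
`d + j`, `j ≤ k` (the generic forms of degree `d`; a relation of degree less than `2 d` is excluded by
differentiating a functional that vanishes on the ideal, and by a product inequality for spaces of
forms, which is reduced to strongly stable sets of monomials, where it follows from the FKG inequality
for the Pólya kernel and its spectral gap). If `u * dim S_k > dim S_{d + k}`, the generic space
generates all forms of degree `d + k`, so the remaining degrees follow, and the truncated series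
vanishes there. The upper bound is `dim S_j V ≤ min (u * dim S_j, dim S_{d + j})`.
-/

set_option autoImplicit false

namespace Pool.Agent.Results.MP_09261c_ag.ManyFormsAllDegrees

/-- Fröberg's formula for the largest `dim S_j V` over the `u`-dimensional spaces `V` of forms of
degree `d`, for all `j` if `u * dim S_k > dim S_{d + k}`, and for `j ≤ k` otherwise, where `k < d` and
`n ≥ 2 k + 2` (or `2 (n + k) dim S_k ≤ n dim S_d`). -/
theorem result :
    ∀ (K : Type) [Field K] [Infinite K] (n d u k : ℕ), 1 ≤ n → 1 ≤ u → k < d →
      (2 * k + 2 ≤ n ∨ 2 * (n + k) * (n + k - 1).choose k ≤ n * (n + d - 1).choose d) →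
      u ≤ Module.finrank K (MvPolynomial.homogeneousSubmodule (Fin n) K d) →
      ∀ a : ℕ → ℤ,
        (∀ i : ℕ, a i = ∑ k ∈ Finset.range (u + 1),
          (-1 : ℤ) ^ k * (u.choose k : ℤ) *
            (if d * k ≤ i then ((n - 1 + i - d * k).choose (n - 1) : ℤ) else 0)) →
      ∀ c : ℕ → ℤ,
        (∀ i : ℕ, ((∀ m : ℕ, m ≤ i → 0 ≤ a m) → c i = a i) ∧
                  ((∃ m : ℕ, m ≤ i ∧ a m < 0) → c i = 0)) →
      ∀ j : ℕ,
        (j ≤ k ∨
          Module.finrank K (MvPolynomial.homogeneousSubmodule (Fin n) K (d + k)) <
            u * Module.finrank K (MvPolynomial.homogeneousSubmodule (Fin n) K k)) →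
        (∀ V : Submodule K (MvPolynomial (Fin n) K),
            V ≤ MvPolynomial.homogeneousSubmodule (Fin n) K d →
            Module.finrank K V = u →
            (Module.finrank K (Submodule.span K (Set.image2 (· * ·)
                ((MvPolynomial.homogeneousSubmodule (Fin n) K j : Submodule K (MvPolynomial (Fin n) K)) :
                  Set (MvPolynomial (Fin n) K))
                (V : Set (MvPolynomial (Fin n) K)))) : ℤ)
              ≤ (Module.finrank K (MvPolynomial.homogeneousSubmodule (Fin n) K (j + d)) : ℤ)
                  - c (j + d)) ∧
        (∃ V : Submodule K (MvPolynomial (Fin n) K),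
            V ≤ MvPolynomial.homogeneousSubmodule (Fin n) K d ∧
            Module.finrank K V = u ∧
            (Module.finrank K (Submodule.span K (Set.image2 (· * ·)
                ((MvPolynomial.homogeneousSubmodule (Fin n) K j : Submodule K (MvPolynomial (Fin n) K)) :
                  Set (MvPolynomial (Fin n) K))
                (V : Set (MvPolynomial (Fin n) K)))) : ℤ)
              = (Module.finrank K (MvPolynomial.homogeneousSubmodule (Fin n) K (j + d)) : ℤ)
                  - c (j + d)) := by
  intro K _ _ n d u k hn hu hkd hcond hud a ha c hc j hj
  exact Pool.Agent.TH206.FroE.main K n d u k hn hu hkd hcond hud a ha c hc j hj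

end Pool.Agent.Results.MP_09261c_ag.ManyFormsAllDegrees
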